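import Pool.Agent.RHO.Stmts3

/-!
# ROW TOP (table ca0)
-/

set_option autoImplicit false

namespace Pool.Agent.RHO.H39c

open Finset

variable {ι : Type} [Fintype ι] [DecidableEq ι]

theorem pr_add (τ f g : Fn ι) : pr τ (f + g) = pr τ f + pr τ g := by
  unfold pr
  rw [← Finset.sum_add_distrib]
  exact Finset.sum_congr rfl fun z _ => by rw [Pi.add_apply, mul_add]

theorem pr_smul (τ f : Fn ι) (c : ZMod 2) : pr τ (fun z => c * f z) = c * pr τ f := by
  unfold pr
  rw [Finset.mul_sum]
  exact Finset.sum_congr rfl fun z _ => by ring

theorem top (hR : RMBStmt) : TOPStmt := by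
  intro ι _ _ τ B B' u hB
  obtain ⟨-, hmul, hmon, -, -, -, hcub, -⟩ := hR ι
  induction B' using Finset.induction_on with
  | empty =>
    intro _
    have e : cub ∅ u * mon (B \ ∅) = mon B := by
      funext z
      rw [Pi.mul_apply]
      unfold cub
      rw [Finset.prod_empty, one_mul, Finset.sdiff_empty]
    rw [e]
    exact hB.1
  | insert i B' hi ih =>
    intro hsub
    have hiB : i ∈ B := hsub (Finset.mem_insert_self i B')
    have hB'B : B' ⊆ B := (Finset.subset_insert i B').trans hsub
    have h1 := ih hB'B
    have hcard : B'.card + (B \ insert i B').card < B.card := by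
      have h2 := Finset.card_sdiff_add_card_eq_card hsub
      rw [Finset.card_insert_of_notMem hi] at h2
      omega
    have h2 : pr τ (cub B' u * mon (B \ insert i B')) = 0 :=
      hB.2 _ hcard _ (hmul _ _ _ _ (hcub B' u) (hmon _))
    have hmonB : ∀ z : Pt ι, mon (B \ B') z = z i * mon (B \ insert i B') z := by
      intro z
      unfold mon
      have hs : B \ B' = insert i (B \ insert i B') := by
        ext j
        simp only [Finset.mem_sdiff, Finset.mem_insert]
        by_cases hj : j = i
        · subst hj
          simp [hiB, hi]
        · simp [hj]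
      rw [hs, Finset.prod_insert]
      simp
    have e : cub (insert i B') u * mon (B \ insert i B') = cub B' u * mon (B \ B') +
        fun z => (u i + 1) * (cub B' u * mon (B \ insert i B')) z := by
      funext z
      rw [Pi.add_apply, Pi.mul_apply, Pi.mul_apply, Pi.mul_apply, hmonB z]
      have hc : cub (insert i B') u z = (z i + u i + 1) * cub B' u z := by
        unfold cub
        rw [Finset.prod_insert hi]
      rw [hc]
      ring
    rw [e, pr_add, pr_smul, h1, h2, mul_zero, add_zero]

end Pool.Agent.RHO.H39c
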